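import Pool.Agent.SXF.Stmts

/-! SXF, row CNT: the number of gates with two touched inputs (helper40). -/

set_option autoImplicit false

namespace Pool.Agent.SXF.H40

open MvPolynomial Pool.Agent.Helper78_ACIT Pool.Agent.WBX Pool.Agent.SXF

theorem refs_cases (g : Gate) : refs g = [] ∨ ∃ a b, refs g = [a, b] := by
  cases g <;> simp [refs]

theorem fanOut_eq (G : List Gate) (j : ℕ) :
    fanOut G j = ∑ i ∈ Finset.range G.length, (refs (G.getD i .zero)).count j := by
  unfold fanOut
  rw [List.count_flatMap, Finset.sum_range, ← Fin.sum_univ_fun_getElem]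
  refine Finset.sum_congr rfl fun i _ => ?_
  rw [List.getD_eq_getElem _ _ i.2]
  rfl

theorem sum_count (S : Finset ℕ) (a b : ℕ) :
    ∑ j ∈ S, [a, b].count j = (if a ∈ S then 1 else 0) + (if b ∈ S then 1 else 0) := by
  have h1 : ∀ j, [a, b].count j = (if a = j then 1 else 0) + (if b = j then 1 else 0) := by
    intro j
    rw [List.count_cons, List.count_cons, List.count_nil]
    simp only [beq_iff_eq]
    omega
  rw [Finset.sum_congr rfl fun j _ => h1 j, Finset.sum_add_distrib, Finset.sum_ite_eq,
    Finset.sum_ite_eq]

theorem cnt : CntStmt := by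
  intro G B S _ hS
  have hSr : S ⊆ Finset.range G.length := fun j hj => Finset.mem_range.2 ((hS j).1 hj).1
  -- the references to touched gates
  have h1 : ∑ j ∈ S, fanOut G j =
      ∑ i ∈ Finset.range G.length, ∑ j ∈ S, (refs (G.getD i .zero)).count j := by
    rw [Finset.sum_comm]
    exact Finset.sum_congr rfl fun j _ => fanOut_eq G j
  have h2 : ∀ i ∈ Finset.range G.length,
      (if i ∈ S ∧ refs (G.getD i .zero) ≠ [] then 1 else 0) +
        (if i ∈ double G S then 1 else 0) ≤ ∑ j ∈ S, (refs (G.getD i .zero)).count j := by
    intro i _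
    rcases refs_cases (G.getD i .zero) with h | ⟨a, b, h⟩
    · have h3 : i ∉ double G S := by
        intro h4
        exact (Finset.mem_filter.1 h4).2.1 h
      rw [if_neg (fun h4 => h4.2 h), if_neg h3]
      exact Nat.zero_le _
    · rw [h, sum_count]
      by_cases hd : i ∈ double G S
      · have h3 := (Finset.mem_filter.1 hd).2.2
        rw [h] at h3
        rw [if_pos (h3 a (by simp)), if_pos (h3 b (by simp)), if_pos hd]
        split_ifs <;> omega
      · rw [if_neg hd]
        by_cases hi : i ∈ S
        · have h3 := ((hS i).1 hi).2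
          rcases h3 with ⟨v, -, hv⟩ | ⟨c, hc, hcS⟩
          · rw [hv] at h
            exact absurd h (by simp [refs])
          · rw [h] at hc
            rcases List.mem_cons.1 hc with h4 | h4
            · rw [h4] at hcS
              rw [if_pos hcS]
              split_ifs <;> omega
            · rw [List.mem_singleton.1 h4] at hcS
              rw [if_pos hcS]
              split_ifs <;> omega
        · rw [if_neg (fun h4 => hi h4.1)]
          omega
  have h3 := Finset.sum_le_sum h2
  rw [Finset.sum_add_distrib, ← h1] at h3
  have h4 : ∑ i ∈ Finset.range G.length, (if i ∈ double G S then 1 else 0) =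
      (double G S).card := by
    rw [Finset.sum_ite_mem, Finset.sum_const, smul_eq_mul, mul_one]
    congr 1
    exact Finset.inter_eq_right.2 (Finset.filter_subset _ _)
  rw [h4] at h3
  -- split the fan-outs
  have h5 : ∑ j ∈ S, fanOut G j = ∑ j ∈ Finset.range G.length, (if j ∈ S then fanOut G j else 0) := by
    rw [Finset.sum_ite_mem, Finset.inter_eq_right.2 hSr]
  have h6 : ∀ j ∈ Finset.range G.length, (if j ∈ S then fanOut G j else 0) ≤
      (∑ v ∈ B, if G.getD j .zero = .var v then max 1 (fanOut G j) else 0) +
      ((if j ∈ S ∧ refs (G.getD j .zero) ≠ [] then 1 else 0) +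
        if refs (G.getD j .zero) = [] then 0 else fanOut G j - 1) := by
    intro j _
    by_cases hj : j ∈ S
    · rw [if_pos hj]
      by_cases hr : refs (G.getD j .zero) = []
      · rcases ((hS j).1 hj).2 with ⟨v, hv, hg⟩ | ⟨c, hc, -⟩
        · have h7 : max 1 (fanOut G j) ≤
              ∑ v ∈ B, if G.getD j .zero = .var v then max 1 (fanOut G j) else 0 := by
            have h8 := Finset.single_le_sum
              (f := fun v => if G.getD j .zero = .var v then max 1 (fanOut G j) else 0)
              (fun v _ => Nat.zero_le _) hv
            simp only [if_pos hg] at h8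
            exact h8
          have h9 : fanOut G j ≤ max 1 (fanOut G j) := le_max_right _ _
          omega
        · rw [hr] at hc
          exact absurd hc (List.not_mem_nil)
      · rw [if_pos ⟨hj, hr⟩, if_neg hr]
        omega
    · rw [if_neg hj]
      exact Nat.zero_le _
  have h7 := Finset.sum_le_sum h6
  rw [← h5, Finset.sum_add_distrib, Finset.sum_add_distrib, Finset.sum_comm] at h7
  have h8 : ∑ v ∈ B, load G v = ∑ v ∈ B, ∑ j ∈ Finset.range G.length,
      (if G.getD j .zero = .var v then max 1 (fanOut G j) else 0) := rfl
  have h9 : extra G = ∑ j ∈ Finset.range G.length,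
      (if refs (G.getD j .zero) = [] then 0 else fanOut G j - 1) := rfl
  rw [← h8, ← h9] at h7
  omega

end Pool.Agent.SXF.H40
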